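import Mathlib

set_option autoImplicit false
open MonoidAlgebra

namespace Pool.Agent.H.MP_a22eb7_al

variable {M : Type} [Monoid M]

/-- The two-sided divisibility preorder. -/
def Le (x y : M) : Prop := ∃ u v, x = u * y * v

theorem Le.rf (x : M) : Le x x := ⟨1, 1, by simp⟩

theorem Le.tr {x y z : M} : Le x y → Le y z → Le x z
  | ⟨u, v, h⟩, ⟨a, b, k⟩ => ⟨u * a, b * v, by simp [h, k, mul_assoc]⟩

theorem Le.l (x y : M) : Le (x * y) x := ⟨1, y, by simp⟩

theorem Le.r (x y : M) : Le (x * y) y := ⟨x, 1, by simp⟩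

/-- Combinatorial consequences of direct finiteness. -/
structure Cb (M : Type) [Monoid M] : Prop where
  d1 : ∀ e s t : M, e * e = e → e * s = s → s * e = s → e * t = t → t * e = t → s * t = e → t * s = e
  d2 : ∀ x β y α : M, x * β = x → α * y = y → Le β y → Le α x → ∃ e, e * e = e ∧ Le e β ∧ Le β e

theorem cb {K : Type} [Field K] (h : ∀ a b : K[M], a * b = 1 → b * a = 1) : Cb M := by
  classical
  refine ⟨fun e s t he s1 s2 t1 t2 k => ?_, fun x β y α h1 h2 ⟨a, c, h3⟩ ⟨a', c', h4⟩ => ?_⟩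
  · have := h (1 - of K M e + of K M s) (1 - of K M e + of K M t) (by
      simp only [add_mul, sub_mul, mul_add, mul_sub, one_mul, mul_one, ← map_mul, he, s2, t1, k]; abel)
    simp only [add_mul, sub_mul, mul_add, mul_sub, one_mul, mul_one, ← map_mul, he, s1, t2] at this
    exact of_injective (R := K) (by linear_combination (norm := abel1) this)
  obtain ⟨δ, hδ⟩ : ∃ δ, δ = a' * x := ⟨_, rfl⟩
  obtain ⟨γ, hγ⟩ : ∃ γ, γ = c' * y * c := ⟨_, rfl⟩
  have e1 : δ * β = δ := by rw [hδ, mul_assoc, h1]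
  have e2 : δ * γ = y * c := by rw [hγ, ← mul_assoc, ← mul_assoc, hδ, ← h4, h2]
  have e3 : a * δ * γ = β := by rw [mul_assoc, e2, ← mul_assoc, ← h3]
  have e4 : c' * δ * γ = γ := by rw [mul_assoc, e2, ← mul_assoc, ← hγ]
  have e5 : a * δ * β = a * δ := by rw [mul_assoc, e1]
  have e6 : c' * δ * β = c' * δ := by rw [mul_assoc, e1]
  have k := h (1 + (of K M (a * δ) - of K M (c' * δ))) (1 + (of K M γ - of K M β)) (by
    simp only [add_mul, sub_mul, mul_add, mul_sub, one_mul, mul_one, ← map_mul, e3, e4, e5, e6]; abel)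
  have k2 : (of K M (a * δ) - of K M (c' * δ)) * of K M β = of K M (a * δ) - of K M (c' * δ) := by
    simp only [sub_mul, ← map_mul, e5, e6]
  have k3 : (of K M γ - of K M β) * of K M β = of K M γ - of K M β := by
    generalize of K M (a * δ) - of K M (c' * δ) = D at k k2
    generalize of K M γ - of K M β = E at k ⊢
    have : E = -((1 + E) * D) := by linear_combination (norm := noncomm_ring) k
    rw [this, neg_mul, mul_assoc, k2]
  simp only [sub_mul, ← map_mul] at k3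
  by_cases p1 : β * β = β
  · exact ⟨β, p1, .rf _, .rf _⟩
  by_cases p2 : γ = β
  · refine (p1 ?_).elim
    rw [p2, e6] at e4
    rwa [e4] at e6
  have c1 := congrArg (·.coeff β) k3
  have c2 := congrArg (·.coeff γ) k3
  simp only [of_apply, coeff_sub, coeff_single, Finsupp.sub_apply, Finsupp.single_apply, p1, p2, Ne.symm p2,
    if_true, if_false] at c1 c2
  have p3 : γ * β = β := by_contra fun n => by simp [n] at c1
  have p4 : β * β = γ := by_contra fun n => by simp [n, p3, Ne.symm p2] at c2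
  refine ⟨γ, ?_, p4 ▸ .l _ _, p3 ▸ .l _ _⟩
  calc γ * γ = γ * β * β := by rw [mul_assoc, p4]
    _ = γ := by rw [p3, p4]

theorem cyc {Z : Type} [Finite Z] [Nonempty Z] (R : Z → Z → Prop) (t : ∀ a b c, R a b → R b c → R a c)
    (h : ∀ a, ∃ b, R a b) : ∃ a, R a a := by
  by_contra! n
  have : IsTrans Z (flip R) := ⟨fun a b c x y => t c b a y x⟩
  have : Std.Irrefl (flip R) := ⟨n⟩
  obtain ⟨a, -, k⟩ := (Finite.wellFounded_of_trans_of_irrefl (flip R)).has_min Set.univ Set.univ_nonempty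
  obtain ⟨b, p⟩ := h a
  exact k b trivial p

theorem idem (C : Cb M) (Z : Finset M) (ne : Z.Nonempty) (h : ∀ z ∈ Z, ∃ a ∈ Z, ∃ b ∈ Z, z = a * b) :
    ∃ e, e * e = e ∧ (∃ z ∈ Z, Le e z) ∧ ∀ z ∈ Z, Le e z → Le z e := by
  obtain ⟨z, hz, mx⟩ := Z.exists_maximalFor (fun m => {x | Le x m}) ne
  have mx : ∀ w ∈ Z, Le z w → Le w z := fun w hw k => mx hw (fun x p => Le.tr p k) (Le.rf w)
  let T := {w // w ∈ Z ∧ Le z w}
  have : Finite T := (Z.finite_toSet.subset fun w (p : w ∈ Z ∧ Le z w) => p.1).to_subtype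
  have : Nonempty T := ⟨⟨z, hz, .rf z⟩⟩
  obtain ⟨x, β, h1, h2⟩ := cyc (fun a b : T => ∃ w, a.1 = b.1 * w ∧ Le w z)
    (fun a b c ⟨u, p, q⟩ ⟨v, r, _⟩ => ⟨v * u, by rw [p, r, mul_assoc], (Le.r _ _).tr q⟩) fun ⟨w, hw, k⟩ => by
      obtain ⟨a, ha, b, hb, rfl⟩ := h w hw
      exact ⟨⟨a, ha, k.tr (.l _ _)⟩, b, rfl, mx b hb (k.tr (.r _ _))⟩
  obtain ⟨y, α, h3, h4⟩ := cyc (fun a b : T => ∃ w, a.1 = w * b.1 ∧ Le w z)
    (fun a b c ⟨u, p, q⟩ ⟨v, r, _⟩ => ⟨u * v, by rw [p, r, mul_assoc], (Le.l _ _).tr q⟩) fun ⟨w, hw, k⟩ => by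
      obtain ⟨a, ha, b, hb, rfl⟩ := h w hw
      exact ⟨⟨b, hb, k.tr (.r _ _)⟩, a, rfl, mx a ha (k.tr (.l _ _))⟩
  obtain ⟨e, he, p, q⟩ := C.d2 _ _ _ _ h1.symm h3.symm (h2.tr y.2.2) (h4.tr x.2.2)
  have : Le z e := (x.2.2.tr (h1 ▸ .r _ _)).tr q
  exact ⟨e, he, ⟨z, hz, p.tr h2⟩, fun w hw k => (mx w hw (this.tr k)).tr this⟩

/-- Membership in the maximal subgroup at `e`. -/
def P (e g : M) : Prop := e * g = g ∧ g * e = g ∧ ∃ h, h * g = e ∧ g * h = e

theorem Cb.un (C : Cb M) {e w : M} (he : e * e = e) (h1 : e * w = w) (h2 : w * e = w) : Le e w → P e w := by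
  rintro ⟨u, v, k⟩
  have he' : ∀ x, e * (e * x) = e * x := fun x => by rw [← mul_assoc, he]
  have h1' : ∀ x, e * (w * x) = w * x := fun x => by rw [← mul_assoc, h1]
  have h2' : ∀ x, w * (e * x) = w * x := fun x => by rw [← mul_assoc, h2]
  have k' : e * u * e * w * (e * v * e) = e := by
    simp only [mul_assoc, h1', h2']
    have : u * (w * (v * e)) = e := by simp only [← mul_assoc]; rw [← k, he]
    rw [this, he]
  refine ⟨h1, h2, e * v * e * (e * u * e), ?_, ?_⟩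
  · rw [mul_assoc]
    exact C.d1 e _ _ he (by simp only [mul_assoc, he']) (by simp only [mul_assoc, h2]) (by simp only [mul_assoc, he'])
      (by simp only [mul_assoc, he]) k'
  · rw [← mul_assoc]
    exact C.d1 e _ _ he (by simp only [mul_assoc, he']) (by simp only [mul_assoc, he]) (by simp only [mul_assoc, h1'])
      (by simp only [mul_assoc, he]) (by rw [← mul_assoc, k'])

theorem P.le {e g : M} (h : P e g) : Le e g := h.2.2.elim fun u k => ⟨u, 1, by simp [k.1]⟩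

theorem P.mul {e g g' : M} (h : P e g) (k : P e g') : P e (g * g') := by
  obtain ⟨a, b, u, c, d⟩ := h
  obtain ⟨a', b', u', c', d'⟩ := k
  refine ⟨by rw [← mul_assoc, a], by rw [mul_assoc, b'], u' * u, ?_, ?_⟩
  · rw [mul_assoc, ← mul_assoc u, c, a', c']
  · rw [mul_assoc, ← mul_assoc g', d', ← mul_assoc, b, d]

theorem P.inv {e g : M} (he : e * e = e) (h : P e g) : ∃ u, P e u ∧ u * g = e := by
  obtain ⟨a, b, u, c, d⟩ := h
  have : e * u * e * g = e := by rw [mul_assoc, mul_assoc, a, c, he]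
  exact ⟨e * u * e, ⟨by simp only [← mul_assoc, he], by simp only [mul_assoc, he], g,
    by rw [← mul_assoc, ← mul_assoc, b, d, he], this⟩, this⟩

/-- The maximal subgroup at an idempotent. -/
abbrev Hg (e : M) : Type := {g // P e g}

noncomputable instance (e : M) [he : Fact (e * e = e)] : Group (Hg e) :=
  letI : Mul (Hg e) := ⟨fun a b => ⟨a.1 * b.1, a.2.mul b.2⟩⟩
  letI : One (Hg e) := ⟨⟨e, he.out, he.out, e, he.out, he.out⟩⟩
  letI : Inv (Hg e) := ⟨fun a => ⟨_, (a.2.inv he.out).choose_spec.1⟩⟩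
  Group.ofLeftAxioms (fun a b c => Subtype.ext (mul_assoc a.1 b.1 c.1)) (fun a => Subtype.ext a.2.1)
    fun a => Subtype.ext (a.2.inv he.out).choose_spec.2

theorem Hg.mul (e : M) [Fact (e * e = e)] (a b : Hg e) : (a * b).1 = a.1 * b.1 := rfl

theorem Hg.one (e : M) [Fact (e * e = e)] : (1 : Hg e).1 = e := rfl

end Pool.Agent.H.MP_a22eb7_al
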