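import Pool.Agent.H.MP_a22eb7_al.A

set_option autoImplicit false
set_option linter.unusedSectionVars false
open MonoidAlgebra

namespace Pool.Agent.H.MP_a22eb7_al

variable {M : Type} [Monoid M] (e : M) [he : Fact (e * e = e)] {G : Type} [Group G] (ρ : Hg e →* G)
  (R : Type) [CommRing R]

open Classical in
/-- Compression of a monoid element to the group. -/
noncomputable def th (m : M) : R[G] := if h : P e (e * m * e) then single (ρ ⟨_, h⟩) 1 else 0

/-- Compression to the group algebra. -/
noncomputable def Ps : R[M] →+ R[G] := liftNC (singleAddHom 1) (th e ρ R)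

/-- Support of the trace. -/
def T (m : M) : Prop := ∃ x, ∃ g : Hg e, ρ g = 1 ∧ x * e = x ∧ Le e x ∧ m * x = x * g.1

open Classical in
/-- The trace. -/
noncomputable def tau : R[M] →+ R := liftNC (AddMonoidHom.id R) fun m => if T e ρ m then 1 else 0

/-- The ideal of elements not above `e`. -/
noncomputable def lo : Submodule R R[M] := supported R R {m | ¬ Le e m}

variable {e R}

theorem ee (x : M) : e * (e * x) = e * x := by rw [← mul_assoc, he.out]

theorem Ps_s (m : M) (c : R) : Ps e ρ R (single m c) = c • th e ρ R m := by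
  simp [Ps, liftNC_single, Algebra.smul_def]

open Classical in
theorem tau_s (m : M) (c : R) : tau e ρ R (single m c) = if T e ρ m then c else 0 := by
  simp [tau, liftNC_single]

theorem th_mul (C : Cb M) (m m' : M) : th e ρ R (m * e * m') = th e ρ R m * th e ρ R m' := by
  have E : e * (m * e * m') * e = e * m * e * (e * m' * e) := by simp only [mul_assoc, ee]
  have u : ∀ m, Le e (e * m * e) → P e (e * m * e) := fun m =>
    C.un he.out (by simp only [mul_assoc, ee]) (by simp only [mul_assoc, he.out])
  unfold th
  by_cases h : P e (e * (m * e * m') * e)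
  · have a := u m (h.le.tr (E ▸ .l _ _))
    have b := u m' (h.le.tr (E ▸ .r _ _))
    rw [dif_pos h, dif_pos a, dif_pos b, single_mul_single, ← map_mul, one_mul]
    exact congrArg (fun g => single (ρ g) (1 : R)) (Subtype.ext E)
  · rw [dif_neg h]
    split_ifs with a b
    · exact (h (E ▸ a.mul b)).elim
    all_goals simp

theorem Ps_mul (C : Cb M) (f g : R[M]) : Ps e ρ R (f * single e 1 * g) = Ps e ρ R f * Ps e ρ R g := by
  induction f using induction_linear with
  | zero => simp
  | add a b p q => simp only [add_mul, map_add, p, q]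
  | single m c =>
    induction g using induction_linear with
    | zero => simp
    | add a b p q => simp only [mul_add, map_add, p, q]
    | single m' c' => simp only [single_mul_single, Ps_s, th_mul ρ C, mul_one, smul_mul_smul_comm]

theorem T_comm {a b : M} : T e ρ (a * b) → T e ρ (b * a)
  | ⟨x, g, h1, h2, h3, h4⟩ => ⟨b * x, g, h1, by rw [mul_assoc, h2], by
      refine h3.tr (Le.tr ?_ (Le.r a _))
      obtain ⟨u, -, k⟩ := g.2.2.2
      exact ⟨1, u, by rw [← mul_assoc a, h4, one_mul, mul_assoc, k, h2]⟩,
    by rw [mul_assoc, ← mul_assoc a, h4, mul_assoc]⟩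

theorem tau_comm (f g : R[M]) : tau e ρ R (f * g) = tau e ρ R (g * f) := by
  induction f using induction_linear with
  | zero => simp
  | add a b p q => simp only [add_mul, mul_add, map_add, p, q]
  | single m c =>
    induction g using induction_linear with
    | zero => simp
    | add a b p q => simp only [add_mul, mul_add, map_add, p, q]
    | single m' c' =>
      simp only [single_mul_single, tau_s, mul_comm c]
      rw [show T e ρ (m * m') = T e ρ (m' * m) from propext ⟨T_comm ρ, T_comm ρ⟩]

theorem T.le {m : M} : T e ρ m → Le e m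
  | ⟨x, g, _, h2, h3, h4⟩ => by
    obtain ⟨u, -, k⟩ := g.2.2.2
    exact h3.tr ⟨1, x * u, by rw [one_mul, ← mul_assoc, h4, mul_assoc, k, h2]⟩

theorem T_e (C : Cb M) {w : M} (h1 : e * w = w) (h2 : w * e = w) : T e ρ w ↔ ∃ h : P e w, ρ ⟨w, h⟩ = 1 := by
  refine ⟨fun t => ?_, fun ⟨h, k⟩ => ⟨e, ⟨w, h⟩, k, he.out, .rf e, h2.trans h1.symm⟩⟩
  have h := C.un he.out h1 h2 t.le
  obtain ⟨x, g, k1, k2, k3, k4⟩ := t
  obtain ⟨u, -, k⟩ := g.2.2.2
  have : x = w * (x * u) := by rw [← mul_assoc, k4, mul_assoc, k, k2]
  have hx := C.un he.out (by rw [this, ← mul_assoc, h1]) k2 k3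
  have E : (⟨w, h⟩ * ⟨x, hx⟩ : Hg e) = (⟨x, hx⟩ * g : Hg e) := Subtype.ext k4
  exact ⟨h, by simpa [k1] using congrArg ρ E⟩

theorem tau_e (C : Cb M) (f : R[M]) :
    tau e ρ R (single e 1 * f * single e 1) = (Ps e ρ R f).coeff 1 := by
  classical
  induction f using induction_linear with
  | zero => simp
  | add a b p q => simp only [add_mul, mul_add, map_add, p, q, coeff_add, Finsupp.add_apply]
  | single m c =>
    simp only [single_mul_single, tau_s, Ps_s, one_mul, mul_one, th,
      T_e ρ C (w := e * m * e) (by simp only [mul_assoc, ee]) (by simp only [mul_assoc, he.out])]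
    by_cases h : P e (e * m * e) <;> simp [h, Finsupp.single_apply]

theorem mem_lo {f : R[M]} : f ∈ lo e R ↔ ∀ m, Le e m → f.coeff m = 0 := by simp [lo, mem_supported']

theorem lo_ind {N : Type} [AddCommGroup N] (φ : R[M] →+ N) (h : ∀ m c, ¬ Le e m → φ (single m c) = 0)
    {f : R[M]} (hf : f ∈ lo e R) : φ f = 0 := by
  rw [← sum_coeff_single f, map_finsuppSum]
  exact Finset.sum_eq_zero fun m hm => h _ _ fun k => Finsupp.mem_support_iff.1 hm (mem_lo.1 hf m k)

theorem lo_l (a : R[M]) {f : R[M]} (hf : f ∈ lo e R) : a * f ∈ lo e R := by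
  classical
  intro m hm k
  obtain ⟨x, -, y, hy, rfl⟩ := Finset.mem_mul.1 (support_coeff_mul_subset a f hm)
  exact hf hy (Le.tr k (.r _ _))

theorem lo_r (a : R[M]) {f : R[M]} (hf : f ∈ lo e R) : f * a ∈ lo e R := by
  classical
  intro m hm k
  obtain ⟨x, hx, y, -, rfl⟩ := Finset.mem_mul.1 (support_coeff_mul_subset f a hm)
  exact hf hx (Le.tr k (.l _ _))

theorem tau_lo {f : R[M]} (hf : f ∈ lo e R) : tau e ρ R f = 0 :=
  lo_ind _ (fun m c k => by rw [tau_s, if_neg fun t => k (T.le ρ t)]) hf

theorem Ps_lo {f : R[M]} (hf : f ∈ lo e R) : Ps e ρ R f = 0 :=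
  lo_ind _ (fun m c k => by rw [Ps_s, th, dif_neg fun t => k (t.le.tr ⟨e, e, rfl⟩), smul_zero]) hf

theorem lo_of (C : Cb M) {f : R[M]} (h : Ps e (MonoidHom.id _) R f = 0) :
    single e 1 * f * single e 1 ∈ lo e R := by
  classical
  have : ∀ m, Le e m → (single e 1 * f * single e 1).coeff m =
      if p : P e m then (Ps e (MonoidHom.id _) R f).coeff ⟨m, p⟩ else 0 := fun m hm => by
    clear h
    induction f using induction_linear with
    | zero => simp
    | add a b p q =>
      simp only [add_mul, mul_add, map_add, p, q, coeff_add, Finsupp.add_apply]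
      split_ifs <;> simp
    | single x c =>
      simp only [single_mul_single, Ps_s, one_mul, mul_one, th, coeff_single, Finsupp.single_apply]
      by_cases k : e * x * e = m
      · subst k
        simp [C.un he.out (w := e * x * e) (by simp only [mul_assoc, ee]) (by simp only [mul_assoc, he.out]) hm]
      · rw [if_neg k]
        split_ifs with p q
        · have : (⟨_, q⟩ : Hg e) ≠ ⟨m, p⟩ := fun z => k (congrArg Subtype.val z)
          simp [this]
        all_goals simp
  exact mem_lo.2 fun m hm => by simp [this m hm, h]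

theorem Ps_dom (f : R[M]) : Ps e ρ R f = mapDomainRingHom R ρ (Ps e (MonoidHom.id _) R f) := by
  induction f using induction_linear with
  | zero => simp
  | add a b p q => simp only [map_add, p, q]
  | single m c => simp only [Ps_s, th]; split_ifs <;> simp

theorem Ps_map {K : Type} [CommRing K] (κ : R →+* K) (f : R[M]) :
    mapRingHom G κ (Ps e ρ R f) = Ps e ρ K (mapRingHom M κ f) := by
  induction f using induction_linear with
  | zero => simp
  | add a b p q => simp only [map_add, p, q]
  | single m c => simp only [mapRingHom_single, Ps_s, th]; split_ifs <;> simp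

end Pool.Agent.H.MP_a22eb7_al
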