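import Pool.Agent.H.MP_a22eb7_al.B

set_option autoImplicit false
set_option linter.unusedSectionVars false
open MonoidAlgebra
open Matrix (trace diag trace_sub map_apply)

namespace Pool.Agent.H.MP_a22eb7_al

variable {M : Type} [Monoid M] {n : Type} [Fintype n] [DecidableEq n]

/-- Matrices with entries in the low ideal. -/
def Lm (e : M) {R : Type} [CommRing R] {a b : Type} (D : Matrix a b R[M]) : Prop := ∀ i j, D i j ∈ lo e R

section
variable {e : M} [he : Fact (e * e = e)] {R : Type} [CommRing R] {a b c : Type} [Fintype b]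

theorem Lm.l (A : Matrix a b R[M]) {D : Matrix b c R[M]} (h : Lm e D) : Lm e (A * D) := fun i j => by
  rw [Matrix.mul_apply]; exact Submodule.sum_mem _ fun k _ => lo_l _ (h k j)

theorem Lm.r {D : Matrix a b R[M]} (A : Matrix b c R[M]) (h : Lm e D) : Lm e (D * A) := fun i j => by
  rw [Matrix.mul_apply]; exact Submodule.sum_mem _ fun k _ => lo_r _ (h i k)

variable {G : Type} [Group G] (ρ : Hg e →* G)

theorem map_Ps (C : Cb M) (A : Matrix a b R[M]) (B : Matrix b c R[M]) (h : ∀ i j, A i j * single e 1 = A i j) :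
    (A * B).map (Ps e ρ R) = A.map (Ps e ρ R) * B.map (Ps e ρ R) := by
  refine Matrix.ext fun i j => ?_
  simp only [Matrix.mul_apply, map_apply, map_sum, ← Ps_mul ρ C, h]

theorem tr_comm [Fintype a] (A : Matrix a b R[M]) (B : Matrix b a R[M]) :
    tau e ρ R (A * B).trace = tau e ρ R (B * A).trace := by
  simp only [trace, diag, Matrix.mul_apply, map_sum]
  rw [Finset.sum_comm]
  simp only [tau_comm ρ (A _ _)]

theorem tr_lo {D : Matrix b b R[M]} (h : Lm e D) : tau e ρ R D.trace = 0 :=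
  tau_lo ρ (Submodule.sum_mem _ fun i _ => h i i)

end

theorem step1 (C : Cb M) {K : Type} [CommRing K] {p : Matrix n n K[M]} (h : p * p = p) (h0 : p ≠ 0) :
    ∃ (e : M) (_ : Fact (e * e = e)) (S : Type) (_ : Fintype S) (X : Matrix n S K[M]) (Y : Matrix S n K[M]),
      (∀ i s, X i s * single e 1 = X i s) ∧ (∀ s j, single e 1 * Y s j = Y s j) ∧ Lm e (p - X * Y) ∧
      (Y * p * X).map (Ps e (MonoidHom.id _) K) ≠ 0 := by
  classical
  let Z : Finset M := Finset.univ.biUnion fun ij : n × n => (p ij.1 ij.2).coeff.support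
  have mZ : ∀ m, m ∈ Z ↔ ∃ i j, (p i j).coeff m ≠ 0 := by simp [Z]
  obtain ⟨e, he, ⟨z, hz, lz⟩, mx⟩ := idem C Z (by
    by_contra! k
    refine h0 (Matrix.ext fun i j => coeff_injective (Finsupp.ext fun m => by_contra fun x => ?_))
    simpa [k] using (mZ m).2 ⟨i, j, x⟩) fun z hz => by
      obtain ⟨i, j, k⟩ := (mZ z).1 hz
      rw [← h, Matrix.mul_apply, coeff_sum, Finsupp.finsetSum_apply] at k
      obtain ⟨l, -, k⟩ := Finset.exists_ne_zero_of_sum_ne_zero k
      obtain ⟨x, hx, y, hy, rfl⟩ := Finset.mem_mul.1 (support_coeff_mul_subset _ _ (Finsupp.mem_support_iff.2 k))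
      exact ⟨x, (mZ x).2 ⟨_, _, Finsupp.mem_support_iff.1 hx⟩, y, (mZ y).2 ⟨_, _, Finsupp.mem_support_iff.1 hy⟩, rfl⟩
  have := Fact.mk he
  let Z0 := Z.filter (Le e)
  have : ∀ w : Z0, Le w.1 e := fun w => mx _ (Finset.mem_filter.1 w.2).1 (Finset.mem_filter.1 w.2).2
  choose u v huv using this
  let X : Matrix n (n × Z0) K[M] := fun i s => if i = s.1 then single (u s.2 * e) 1 else 0
  let Y : Matrix (n × Z0) n K[M] := fun s j => single (e * v s.2) ((p s.1 j).coeff s.2)
  have hX : ∀ i s, X i s * single e 1 = X i s := fun i s => by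
    simp only [X]; split_ifs <;> simp [single_mul_single, mul_assoc, he]
  have hY : ∀ s j, single e 1 * Y s j = Y s j := fun s j => by simp [Y, single_mul_single, ee]
  have L : Lm e (p - X * Y) := fun i j => mem_lo.2 fun m hm => by
    have : ∀ w, u w * e * (e * v w) = w := fun w => by rw [mul_assoc, ee, ← mul_assoc, ← huv]
    simp only [X, Y, Matrix.sub_apply, Matrix.mul_apply, Fintype.sum_prod_type_right, ite_mul, zero_mul, Finset.sum_ite_eq,
      Finset.mem_univ, if_true, single_mul_single, this, one_mul, coeff_sub, coeff_sum, coeff_single,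
      Finsupp.sub_apply, Finsupp.finsetSum_apply, Finsupp.single_apply, sub_eq_zero]
    rw [Finset.sum_coe_sort Z0 fun w => if w = m then (p i j).coeff w else 0, Finset.sum_ite_eq']
    split_ifs with k
    · rfl
    · exact by_contra fun x => k (Finset.mem_filter.2 ⟨(mZ m).2 ⟨i, j, x⟩, hm⟩)
  refine ⟨e, this, n × Z0, inferInstance, X, Y, hX, hY, L, fun k => ?_⟩
  have L2 : Lm e (Y * p * X) := fun s t => by
    have := lo_of C (congrFun (congrFun k s) t)
    simpa only [Matrix.mul_apply, Finset.sum_mul, Finset.mul_sum, ← mul_assoc, hY, mul_assoc _ (X _ _), hX] using this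
  obtain ⟨i, j, x⟩ := (mZ z).1 hz
  refine x (mem_lo.1 ?_ z lz)
  have E : p = X * (Y * p * X) * Y + (p - X * Y) * p + X * Y * p * (p - X * Y) := by
    simp only [Matrix.mul_sub, Matrix.sub_mul, Matrix.mul_assoc, h]; abel
  rw [E]
  exact add_mem (add_mem ((L2.l X).r Y i j) (L.r p i j)) (L.l _ i j)

theorem ker_map {R K : Type} [CommRing R] [CommRing K] {κ : R →+* K} {π : R} (hk : ∀ r, κ r = 0 → π ∣ r)
    (e : M) [Fact (e * e = e)] {f : R[M]} (h : mapRingHom M κ f ∈ lo e K) : ∃ g : R[M], f - π • g ∈ lo e R := by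
  classical
  have : ∀ m, ∃ c, (Le e m → f.coeff m = π * c) ∧ (f.coeff m = 0 → c = 0) := fun m => by
    by_cases z : f.coeff m = 0
    · exact ⟨0, by simp [z]⟩
    by_cases k : Le e m
    · obtain ⟨c, hc⟩ := hk (f.coeff m) (by simpa using mem_lo.1 h m k)
      exact ⟨c, fun _ => hc, fun x => (z x).elim⟩
    · exact ⟨0, by simp [k]⟩
  choose c h1 h2 using this
  exact ⟨.ofCoeff (Finsupp.onFinset f.coeff.support c fun m x => Finsupp.mem_support_iff.2 fun y => x (h2 m y)),
    mem_lo.2 fun m hm => by simp [h1 m hm]⟩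

theorem ker_map' {R K : Type} [CommRing R] [CommRing K] {κ : R →+* K} {π : R} (hk : ∀ r, κ r = 0 → π ∣ r)
    {f : R[M]} (h : mapRingHom M κ f = 0) : ∃ g : R[M], f = π • g := by
  have := Fact.mk (mul_one (1 : M))
  have : ∀ m, ∃ c, f.coeff m = π * c ∧ (f.coeff m = 0 → c = 0) := fun m => by
    by_cases z : f.coeff m = 0
    · exact ⟨0, by simp [z]⟩
    obtain ⟨c, hc⟩ := hk (f.coeff m) (by simpa using congrArg (·.coeff m) h)
    exact ⟨c, hc, fun x => (z x).elim⟩
  choose c h1 h2 using this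
  exact ⟨.ofCoeff (Finsupp.onFinset f.coeff.support c fun m x => Finsupp.mem_support_iff.2 fun y => x (h2 m y)),
    coeff_injective (Finsupp.ext fun m => by simp [h1 m])⟩

theorem step3 (C : Cb M) {R K : Type} [CommRing R] [CommRing K] {κ : R →+* K} (hs : Function.Surjective κ) {π : R}
    (hk : ∀ r, κ r = 0 → π ∣ r) (hπ : κ π = 0) (hn : IsNilpotent π) {A B : Matrix n n K[M]} (h : A * B = 1)
    {e : M} [Fact (e * e = e)] {S : Type} [Fintype S] {X : Matrix n S K[M]} {Y : Matrix S n K[M]}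
    (hX : ∀ i s, X i s * single e 1 = X i s) (hY : ∀ s j, single e 1 * Y s j = Y s j)
    (L : Lm e (1 - B * A - X * Y)) {G : Type} [Group G] (ρ : Hg e →* G) :
    ∃ q : Matrix S S R[G], q * q = q ∧ q.trace.coeff 1 = 0 ∧
      q.map (mapRingHom G κ) = (Y * (1 - B * A) * X).map (Ps e ρ K) := by
  have : ∀ b, ∃ a, mapRingHom M κ a = b := map_surjective (M := M) κ.toAddMonoidHom hs
  choose l hl using this
  let φ := (mapRingHom M κ).mapMatrix (m := n)
  have nil : ∀ W : Matrix n n R[M], IsUnit (1 - π • W) := fun W =>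
    IsNilpotent.isUnit_one_sub (hn.imp fun k z => by rw [smul_pow, z, zero_smul])
  have φπ : ∀ W : Matrix n n R[M], φ (π • W) = 0 := fun W => by
    ext i j m; simp [φ, hπ]
  have lf : ∀ {a b : Type} (A : Matrix a b K[M]), (A.map l).map (mapRingHom M κ) = A := fun A => by
    refine Matrix.ext fun i j => ?_; simp [hl]
  have : ∀ i j, ∃ g, (1 - A.map l * B.map l) i j = π • g := fun i j => ker_map' hk (by
    have : φ (1 - A.map l * B.map l) = 0 := by
      rw [map_sub, map_one, map_mul, show φ (A.map l) = A from lf A, show φ (B.map l) = B from lf B, h, sub_self]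
    exact congrFun (congrFun this i) j)
  choose W hW using this
  obtain ⟨u, hu⟩ := nil (.of W)
  have h1 : A.map l * B.map l = u.1 := by
    rw [hu, eq_sub_iff_add_eq, add_comm, ← eq_sub_iff_add_eq]; refine Matrix.ext fun i j => ?_; exact (hW i j).symm
  obtain ⟨A', hA, B', hB, h2⟩ : ∃ A', φ A' = A ∧ ∃ B', φ B' = B ∧ A' * B' = 1 := by
    refine ⟨A.map l, lf A, B.map l * u⁻¹.1, ?_, by rw [← mul_assoc, h1, Units.mul_inv]⟩
    have : φ u.1 * φ u⁻¹.1 = 1 := by rw [← map_mul, Units.mul_inv, map_one]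
    rw [hu, map_sub, φπ, map_one, sub_zero, one_mul] at this
    rw [map_mul, this, mul_one]; exact lf B
  obtain ⟨p, hp⟩ : ∃ p, p = 1 - B' * A' := ⟨_, rfl⟩
  have pp : p * p = p := by
    rw [hp]; linear_combination (norm := noncomm_ring) B' * h2 * A'
  have φp : φ p = 1 - B * A := by simp [hp, hA, hB]
  have tp : tau e ρ R p.trace = 0 := by rw [hp, trace_sub, map_sub, tr_comm, h2, sub_self]
  obtain ⟨X', fX, hX'⟩ : ∃ X' : Matrix n S R[M], X'.map (mapRingHom M κ) = X ∧ ∀ i s, X' i s * single e 1 = X' i s :=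
    ⟨.of fun i s => l (X i s) * single e 1, by refine Matrix.ext fun i s => ?_; simp [hl, hX], fun i s => by
      simp [mul_assoc, single_mul_single, Fact.out (p := e * e = e)]⟩
  obtain ⟨Y', fY, hY'⟩ : ∃ Y' : Matrix S n R[M], Y'.map (mapRingHom M κ) = Y ∧ ∀ s j, single e 1 * Y' s j = Y' s j :=
    ⟨.of fun s j => single e 1 * l (Y s j), by refine Matrix.ext fun i s => ?_; simp [hl, hY], fun i s => by
      simp [← mul_assoc, single_mul_single, Fact.out (p := e * e = e)]⟩
  have : ∀ i j, ∃ g, (p - X' * Y') i j - π • g ∈ lo e R := fun i j => ker_map hk e (by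
    have : φ (p - X' * Y') = 1 - B * A - X * Y := by rw [map_sub, φp]; simp [φ, Matrix.map_mul, fX, fY]
    have : mapRingHom M κ ((p - X' * Y') i j) = _ := congrFun (congrFun this i) j
    exact this ▸ L i j)
  choose D hD using this
  have LD : Lm e (p - X' * Y' - π • .of D) := hD
  generalize Matrix.of D = D at LD
  obtain ⟨w, hw⟩ := nil (p * D * p)
  have cm : Commute p w.1 := by
    rw [hw]; simp [Commute, SemiconjBy, mul_sub, sub_mul, ← mul_assoc, pp, mul_assoc _ p p]
  have cm' : p * w⁻¹.1 = w⁻¹.1 * p := cm.units_inv_right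
  have φw : φ w⁻¹.1 = 1 := by
    have : φ w.1 * φ w⁻¹.1 = 1 := by rw [← map_mul, Units.mul_inv, map_one]
    rwa [hw, map_sub, φπ, map_one, sub_zero, one_mul] at this
  generalize hE : p - X' * Y' - π • D = E at LD
  have E1 : (w⁻¹.1 * p) * (X' * Y') * p = p - w⁻¹.1 * p * E * p := by
    have : p * (X' * Y') * p = w.1 * p - p * E * p := by
      rw [← hE, hw]; simp [mul_sub, sub_mul, pp, mul_assoc _ p p]
    rw [mul_assoc, mul_assoc, ← mul_assoc p, this, mul_sub, Units.inv_mul_cancel_left]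
    simp only [mul_assoc]
  have vp : p * (w⁻¹.1 * p) = w⁻¹.1 * p := by rw [← mul_assoc, cm', mul_assoc, pp]
  generalize hV : (w⁻¹.1 * p) = V at E1 vp
  have φV : φ V = 1 - B * A := by rw [← hV, map_mul, φw, one_mul, φp]
  have rX : ∀ s t, (Y' * V * X') s t * single e 1 = (Y' * V * X') s t := fun s t => by
    simp only [Matrix.mul_apply, Finset.sum_mul, mul_assoc _ (X' _ _), hX']
  have rY : ∀ s t, single e 1 * (Y' * V * X') s t = (Y' * V * X') s t := fun s t => by
    simp only [Matrix.mul_apply, Finset.sum_mul, Finset.mul_sum, ← mul_assoc, hY']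
  refine ⟨(Y' * V * X').map (Ps e ρ R), ?_, ?_, ?_⟩
  · rw [← map_Ps ρ C _ _ rX]
    have : Y' * V * X' * (Y' * V * X') = Y' * V * X' - Y' * (V * E * V) * X' := by
      have : V * (X' * Y') * V = V - V * E * V := by
        rw [← vp, ← mul_assoc, vp, E1, sub_mul, vp, mul_assoc _ p, vp]
      rw [← Matrix.sub_mul, ← Matrix.mul_sub, ← this]
      simp only [Matrix.mul_assoc]
    rw [this]
    refine Matrix.ext fun s t => ?_
    simp [Ps_lo ρ (((((LD.l V).r V).l Y').r X') s t)]
  · have : tau e ρ R (Y' * V * X').trace = 0 := by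
      rw [tr_comm, ← Matrix.mul_assoc, tr_comm, ← vp, mul_assoc, tr_comm, E1, trace_sub, map_sub, tp,
        tr_lo ρ ((LD.l V).r p), sub_zero]
    rw [← this]
    simp only [trace, diag, map_apply, coeff_sum, Finsupp.finsetSum_apply, map_sum, ← tau_e ρ C, rX, rY]
  · have : V.map (mapRingHom M κ) = 1 - B * A := φV
    rw [← this, ← fX, ← fY, ← Matrix.map_mul, ← Matrix.map_mul]
    refine Matrix.ext fun s t => ?_
    simp only [map_apply, Ps_map]

end Pool.Agent.H.MP_a22eb7_al
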