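import Mathlib

set_option autoImplicit false
open MonoidAlgebra

namespace Pool.Agent.H.MP_a22eb7_al

theorem kap0 {A : Type} [Ring A] [Algebra ℝ A] (σ : A →+ A) (τ : A →ₗ[ℝ] ℝ) (m : ∀ a b, σ (a * b) = σ b * σ a)
    (i : ∀ a, σ (σ a) = a) (s : ∀ (c : ℝ) a, σ (c • a) = c • σ a) (t : ∀ a b, τ (a * b) = τ (b * a))
    (r : ∀ a, τ (σ a) = τ a)
    (p : ∀ a, 0 ≤ τ (σ a * a)) (b : ∀ a, ∃ C, ∀ v, τ (σ (a * v) * (a * v)) ≤ C * τ (σ v * v))
    {e : A} (he : e * e = e) (h0 : τ e = 0) : τ (σ e * e) = 0 := by
  have o : σ 1 = 1 := by have := m (σ 1) 1; rw [mul_one, i, mul_one] at this; exact this.symm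
  have he' : σ e * σ e = σ e := by rw [← m, he]
  obtain ⟨d, hd⟩ : ∃ d, d = e - σ e := ⟨_, rfl⟩
  obtain ⟨z, hz⟩ : ∃ z, z = 1 + σ d * d := ⟨_, rfl⟩
  have z1 : e * z = e * σ e * e := by
    rw [hz, hd, map_sub, i]; linear_combination (norm := noncomm_ring) -he * e + he * σ e - e * he' - he
  have z2 : z * e = e * σ e * e := by
    rw [hz, hd, map_sub, i]; linear_combination (norm := noncomm_ring) -he * e + σ e * he - he' * e - he
  have sz : σ z = z := by rw [hz, map_add, o, m, i]
  obtain ⟨C, hC⟩ := b d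
  obtain ⟨D, hD⟩ := b z
  have q : ∀ v, τ (σ v * (z * v)) = τ (σ v * v) + τ (σ (d * v) * (d * v)) := fun v => by
    rw [hz, m, ← map_add]; congr 1; noncomm_ring
  obtain ⟨c, c0, c1, c2⟩ : ∃ c : ℝ, 0 < c ∧ c * (1 + C) ≤ 1 ∧ c * D ≤ 1 ∧ c < 1 := by
    refine ⟨1 / (2 + |C| + |D|), by positivity, ?_, ?_, ?_⟩
    all_goals
      have := le_abs_self C; have := le_abs_self D; have := abs_nonneg C; have := abs_nonneg D
      field_simp; linarith
  obtain ⟨c2, c3⟩ := c2
  obtain ⟨y, hy⟩ : ∃ y, y = 1 - c • z := ⟨_, rfl⟩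
  have sy : σ y = y := by rw [hy, map_sub, o, s, sz]
  have sk : ∀ k, σ (y ^ k) = y ^ k := fun k => by
    induction k with
    | zero => simpa using o
    | succ k ih => rw [pow_succ, m, ih, sy, ← pow_succ', pow_succ]
  have y1 : ∀ v, 0 ≤ τ (σ v * (y * v)) := fun v => by
    have : τ (σ v * (y * v)) = τ (σ v * v) - c * τ (σ v * (z * v)) := by
      simp [hy, sub_mul, mul_sub]
    rw [this, q]
    nlinarith [hC v, p v]
  have y2 : ∀ v, τ (σ (y * v) * (y * v)) ≤ (1 - c) * τ (σ v * v) := fun v => by
    have : τ (σ (y * v) * (y * v)) = τ (σ v * v) - 2 * c * τ (σ v * (z * v)) + c * c * τ (σ (z * v) * (z * v)) := by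
      rw [m, m, sy, sz]
      simp only [hy, sub_mul, mul_sub, one_mul, mul_one, smul_mul_assoc, mul_smul_comm, map_sub, map_smul,
        smul_eq_mul, mul_assoc]
      ring
    rw [this, q]
    have h1 := mul_le_mul_of_nonneg_left (hD v) (mul_pos c0 c0).le
    have h2 := mul_le_mul_of_nonneg_right c2 (mul_nonneg c0.le (p v))
    nlinarith [mul_nonneg c0.le (p (d * v))]
  have y3 : ∀ k, τ (σ (y ^ k) * y ^ k) ≤ (1 - c) ^ k * τ (σ 1 * 1) := fun k => by
    induction k with
    | zero => simp
    | succ k ih =>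
      rw [pow_succ', pow_succ' (1 - c), mul_assoc]
      exact (y2 _).trans (mul_le_mul_of_nonneg_left ih (by linarith))
  have cm : Commute e y := by rw [hy]; simp [Commute, SemiconjBy, mul_sub, sub_mul, z1, z2]
  have tj : ∀ j, 0 ≤ τ (σ e * (y ^ j * e)) := fun j => by
    obtain ⟨k, rfl | rfl⟩ := j.even_or_odd'
    · convert p (y ^ k * e) using 2
      rw [m, sk, two_mul, pow_add]; noncomm_ring
    · convert y1 (y ^ k * e) using 2
      rw [m, sk, show 2 * k + 1 = k + 1 + k by ring, pow_add, pow_succ]; noncomm_ring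
  have st : ∀ j, τ (e * y ^ (j + 1)) = τ (e * y ^ j) - c * τ (σ e * (y ^ j * e)) := fun j => by
    have : τ (e * z * y ^ j) = τ (σ e * (y ^ j * e)) := by
      rw [z1, mul_assoc, mul_assoc, t, (cm.pow_right j).eq, mul_assoc, mul_assoc, he]
    rw [← this, pow_succ', ← mul_assoc]
    nth_rw 1 [hy]
    simp [mul_sub, sub_mul]
  have u : ∀ j, τ (e * y ^ (j + 1)) ≤ -(c * τ (σ e * e)) := fun j => by
    induction j with
    | zero => rw [st]; simp [h0]
    | succ j ih => rw [st]; nlinarith [mul_nonneg c0.le (tj (j + 1))]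
  have w : ∀ j, c * c * τ (σ e * e) ≤ (1 - c) ^ (j + 1) * τ (σ 1 * 1) := fun j => by
    have h1 := p (c • σ e + y ^ (j + 1))
    have h2 : τ (y ^ (j + 1) * σ e) = τ (e * y ^ (j + 1)) := by rw [← r (e * _), m, sk]
    have h3 := y3 (j + 1)
    rw [sk] at h3
    simp only [map_add, s, i, sk, add_mul, mul_add, smul_mul_assoc, mul_smul_comm, map_smul, smul_eq_mul, h2,
      t e (σ e)] at h1
    nlinarith [mul_le_mul_of_nonneg_left (u j) c0.le]
  refine le_antisymm ?_ (p e)
  have := ge_of_tendsto' (((tendsto_pow_atTop_nhds_zero_of_lt_one (by linarith) (by linarith : 1 - c < 1)).comp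
    (Filter.tendsto_add_atTop_nat 1)).mul_const (τ (σ 1 * 1))) w
  rw [zero_mul] at this
  exact nonpos_of_mul_nonpos_right this (mul_pos c0 c0)

variable {G : Type} [Group G] {S : Type} [Fintype S] [DecidableEq S]

/-- The involution of the complex group algebra. -/
noncomputable def st : ℂ[G] →+ ℂ[G] :=
  liftNC ((singleAddHom 1).comp (starRingEnd ℂ).toAddMonoidHom) fun g => single g⁻¹ 1

theorem st_s (g : G) (c : ℂ) : st (single g c) = single g⁻¹ (starRingEnd ℂ c) := by
  simp [st, liftNC_single, single_mul_single]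

theorem st_mul (f g : ℂ[G]) : st (f * g) = st g * st f := by
  induction f using induction_linear with
  | zero => simp
  | add a b p q => simp only [add_mul, mul_add, map_add, p, q]
  | single m c =>
    induction g using induction_linear with
    | zero => simp
    | add a b p q => simp only [add_mul, mul_add, map_add, p, q]
    | single m' c' => simp [single_mul_single, st_s, mul_comm]

theorem st_c (f : ℂ[G]) (g : G) : (st f).coeff g = starRingEnd ℂ (f.coeff g⁻¹) := by
  classical
  induction f using induction_linear with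
  | zero => simp
  | add a b p q => simp [p, q]
  | single m c =>
    simp only [st_s, coeff_single, Finsupp.single_apply, inv_eq_iff_eq_inv]
    split_ifs <;> simp

theorem c1_comm {R : Type} [CommRing R] (f g : R[G]) : (f * g).coeff 1 = (g * f).coeff 1 := by
  classical
  induction f using induction_linear with
  | zero => simp
  | add a b p q => simp [add_mul, mul_add, p, q]
  | single m c => simp [coeff_mul_single_apply, coeff_single_mul_apply, mul_comm]

theorem c1_st (f : ℂ[G]) : ((st f * f).coeff 1).re = ∑ g ∈ f.coeff.support, Complex.normSq (f.coeff g) := by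
  rw [coeff_mul_apply_right, Finsupp.sum, Complex.re_sum]
  simp [st_c, Complex.normSq_apply]

theorem kapC {q : Matrix S S ℂ[G]} (h : q * q = q) (h0 : q.trace.coeff 1 = 0) : q = 0 := by
  classical
  let σ : Matrix S S ℂ[G] →+ Matrix S S ℂ[G] :=
    ⟨⟨fun a => .of fun i j => st (a j i), by ext i j : 2; simp⟩, fun a b => by ext i j : 2; simp⟩
  have σa : ∀ a i j, σ a i j = st (a j i) := fun _ _ _ => rfl
  let τ : Matrix S S ℂ[G] →ₗ[ℝ] ℝ := ⟨⟨fun a => (a.trace.coeff 1).re, by simp⟩, by simp⟩
  have τa : ∀ a, τ a = ∑ i, ((a i i).coeff 1).re := fun a => by simp [τ, Matrix.trace]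
  have N : ∀ a, τ (σ a * a) = ∑ i, ∑ j, ∑ g ∈ (a j i).coeff.support, Complex.normSq ((a j i).coeff g) := fun a => by
    simp [τa, Matrix.mul_apply, σa, c1_st]
  have m : ∀ a b, σ (a * b) = σ b * σ a := fun a b => Matrix.ext fun i j => by
    simp [σa, Matrix.mul_apply, st_mul]
  have p : ∀ a, 0 ≤ τ (σ a * a) := fun a => by
    rw [N]; exact Finset.sum_nonneg fun _ _ => Finset.sum_nonneg fun _ _ => Finset.sum_nonneg fun _ _ =>
      Complex.normSq_nonneg _
  have o : σ 1 = 1 := Matrix.ext fun i j => by
    simp only [σa, Matrix.one_apply, eq_comm (a := j)]; split_ifs <;> simp [one_def, st_s]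
  have := kap0 σ τ m (fun a => by ext i j g; simp [σa, st_c]) (fun c a => by ext i j g; simp [σa, st_c])
    (fun a b => by
      simp only [τa, Matrix.mul_apply, coeff_sum, Finsupp.finsetSum_apply, Complex.re_sum]
      rw [Finset.sum_comm]
      simp only [c1_comm (a _ _)])
    (fun a => by simp [τa, σa, st_c]) p (fun a => ?_) h (by simp [τ, h0])
  · rw [N] at this
    ext i j g
    by_contra k
    have n := fun i j g => Complex.normSq_nonneg ((q j i).coeff g)
    rw [Finset.sum_eq_zero_iff_of_nonneg fun _ _ => Finset.sum_nonneg fun _ _ => Finset.sum_nonneg fun _ _ => n _ _ _]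
      at this
    have := (Finset.sum_eq_zero_iff_of_nonneg fun _ _ => Finset.sum_nonneg fun _ _ => n _ _ _).1
      (this j (Finset.mem_univ _)) i (Finset.mem_univ _)
    exact k (Complex.normSq_eq_zero.1 ((Finset.sum_eq_zero_iff_of_nonneg fun _ _ => n _ _ _).1 this g
      (Finsupp.mem_support_iff.2 k)))
  have ad : ∀ a b, (∃ C, ∀ v, τ (σ (a * v) * (a * v)) ≤ C * τ (σ v * v)) →
      (∃ C, ∀ v, τ (σ (b * v) * (b * v)) ≤ C * τ (σ v * v)) →
      ∃ C, ∀ v, τ (σ ((a + b) * v) * ((a + b) * v)) ≤ C * τ (σ v * v) := fun a b ⟨C, x⟩ ⟨D, y⟩ =>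
    ⟨2 * C + 2 * D, fun v => by
      have := p (a * v - b * v)
      have x := x v
      have y := y v
      simp only [add_mul, mul_add, sub_mul, mul_sub, map_add, map_sub] at this ⊢
      linarith⟩
  induction a using Matrix.induction_on' with
  | h_zero => exact ⟨0, by simp⟩
  | h_add a b x y => exact ad a b x y
  | h_std_basis i j f =>
    induction f using induction_linear with
    | zero => exact ⟨0, by simp⟩
    | add a b x y => rw [Matrix.single_add]; exact ad _ _ x y
    | single g c =>
      refine ⟨Complex.normSq c, fun v => ?_⟩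
      have σs : ∀ i j f, σ (.single i j f) = .single j i (st f) := fun i j f => Matrix.ext fun a b => by
        simp only [σa, Matrix.single_apply, and_comm]; split_ifs <;> simp
      have e1 : σ (.single i j (single g c)) * .single i j (single g c) =
          Complex.normSq c • Matrix.single j j (1 : ℂ[G]) := by
        rw [σs, Matrix.single_mul_single_same, st_s, single_mul_single, Matrix.smul_single, one_def, smul_single]
        simp [Complex.normSq_eq_conj_mul_self]
      have := p ((1 - .single j j 1) * v)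
      rw [m, map_sub, o, σs, show st (1 : ℂ[G]) = 1 by simp [one_def, st_s]] at this
      simp only [mul_assoc, sub_mul, mul_sub, one_mul, ← mul_assoc (Matrix.single j j (1 : ℂ[G])),
        Matrix.single_mul_single_same, map_sub] at this
      rw [m, mul_assoc, ← mul_assoc (σ _) _ v, e1, smul_mul_assoc, mul_smul_comm, map_smul, smul_eq_mul]
      exact mul_le_mul_of_nonneg_left (by linarith) (Complex.normSq_nonneg c)

theorem kap {K : Type} [Field K] [CharZero K] {q : Matrix S S K[G]} (h : q * q = q) (h0 : q.trace.coeff 1 = 0) :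
    q = 0 := by
  classical
  ext i j g
  by_contra k
  let F : Finset K := insert ((q i j).coeff g)⁻¹ (Finset.univ.biUnion fun x : S × S => (q x.1 x.2).coeff.frange)
  let A := Algebra.adjoin ℚ (F : Set K)
  have : Algebra.FiniteType ℚ A := (Subalgebra.fg_iff_finiteType _).1 (Subalgebra.fg_adjoin_finset F)
  obtain ⟨I, hI⟩ := Ideal.exists_maximal A
  let := Ideal.Quotient.field I
  have := finite_of_finite_type_of_isJacobsonRing ℚ (A ⧸ I)
  let φ : A →+* ℂ := (IsAlgClosed.lift (R := ℚ) (S := A ⧸ I) (M := ℂ)).toRingHom.comp (Ideal.Quotient.mk I)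
  have : ∀ a b, ∃ f : A[G], mapRingHom G A.val.toRingHom f = q a b := fun a b => by
    have : q a b ∈ Set.range (map (M := G) A.val.toRingHom.toAddMonoidHom) := by
      rw [range_map]
      intro x
      by_cases z : (q a b).coeff x = 0
      · exact ⟨0, by simp [z]⟩
      · exact ⟨⟨_, Algebra.subset_adjoin (Finset.mem_insert_of_mem (Finset.mem_biUnion.2
          ⟨(a, b), Finset.mem_univ _, Finsupp.mem_frange.2 ⟨z, x, rfl⟩⟩))⟩, rfl⟩
    exact this
  choose q0 hq using this
  have inj : Function.Injective (mapRingHom G A.val.toRingHom) :=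
    map_injective (M := G) A.val.toRingHom.toAddMonoidHom Subtype.val_injective
  have e : (Matrix.of q0).map (mapRingHom G A.val.toRingHom) = q := Matrix.ext hq
  have h1 : Matrix.of q0 * .of q0 = .of q0 := Matrix.map_injective inj (by simp only [Matrix.map_mul, e, h])
  have h2 : (Matrix.of q0).trace.coeff 1 = 0 := Subtype.ext (by
    rw [← e, ← AddMonoidHom.map_trace, coeff_mapRingHom] at h0; exact h0)
  have := kapC (q := (Matrix.of q0).map (mapRingHom G φ)) (by rw [← Matrix.map_mul, h1])
    (by rw [← AddMonoidHom.map_trace, coeff_mapRingHom, h2, map_zero])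
  have z : φ ((q0 i j).coeff g) = 0 := by simpa using congrArg (fun x => (x i j).coeff g) this
  have u : (q0 i j).coeff g * ⟨_, Algebra.subset_adjoin (Finset.mem_insert_self _ _)⟩ = 1 := Subtype.ext (by
    have : ((q0 i j).coeff g).1 = (q i j).coeff g := by rw [← hq, coeff_mapRingHom]; rfl
    simpa [this] using mul_inv_cancel₀ k)
  simpa [z] using congrArg φ u

theorem fin_loc [Finite G] {R : Type} [CommRing R] [IsLocalRing R] {q : Matrix S S R[G]} (h : q * q = q)
    (h0 : q.trace.coeff 1 = 0) : ∃ r ≤ Fintype.card S * Nat.card G, (r : R) = 0 ∧ (r = 0 → q = 0) := by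
  classical
  have := Fintype.ofFinite G
  let ψ := Algebra.leftMulMatrix (basis G R)
  let φ := (Matrix.compRingEquiv S G R).toRingHom.comp ψ.toRingHom.mapMatrix
  have inj : Function.Injective φ :=
    (Matrix.compRingEquiv S G R).injective.comp (Matrix.map_injective (Algebra.leftMulMatrix_injective _))
  let L := Matrix.toLin' (φ q)
  have hL : IsIdempotentElem L := by rw [IsIdempotentElem, Module.End.mul_eq_comp, ← Matrix.toLin'_mul, ← map_mul, h]
  have fr : ∀ L : Module.End R (S × G → R), IsIdempotentElem L → Module.Free R (LinearMap.range L) := fun L hL => by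
    have : Module.Projective R (LinearMap.range L) := .of_split (LinearMap.range L).subtype L.rangeRestrict (by
      ext ⟨_, x, rfl⟩ : 2; exact LinearMap.congr_fun hL x)
    exact Module.free_of_flat_of_isLocalRing
  have f1 := fr L hL
  have kr := LinearMap.IsIdempotentElem.ker_eq_range_one_sub hL
  have f2 : Module.Free R (LinearMap.ker L) := kr ▸ fr _ hL.one_sub
  have f3 : Module.Finite R (LinearMap.ker L) := kr ▸ inferInstance
  refine ⟨Module.finrank R (LinearMap.range L), by simpa using L.finrank_range_le, ?_, fun z => inj ?_⟩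
  · rw [← (LinearMap.IsIdempotentElem.isProj_range _ hL).trace, Matrix.trace_toLin'_eq]
    simp only [Matrix.trace, Matrix.diag, coeff_sum, Finsupp.finsetSum_apply] at h0 ⊢
    simp [φ, ψ, Fintype.sum_prod_type, Algebra.leftMulMatrix_eq_repr_mul, basis, coeff_mul_single_apply,
      ← Finset.mul_sum, h0]
  · rw [Module.finrank_eq_zero_iff_of_free, Submodule.subsingleton_iff_eq_bot, LinearMap.range_eq_bot] at z
    simpa [L] using z

end Pool.Agent.H.MP_a22eb7_al
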