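import Pool.Agent.H.MP_a22eb7_al.C
import Pool.Agent.H.MP_a22eb7_al.D

set_option autoImplicit false
open MonoidAlgebra

namespace Pool.Agent.H.MP_a22eb7_al

variable {M : Type} [Monoid M] {n : Type} [Fintype n] [DecidableEq n]

theorem idp {T : Type} [Ring T] {A B : T} (h : A * B = 1) : (1 - B * A) * (1 - B * A) = 1 - B * A := by
  linear_combination (norm := noncomm_ring) B * h * A

theorem char0 {K : Type} [Field K] [CharZero K] (C : Cb M) {A B : Matrix n n K[M]} (h : A * B = 1) : B * A = 1 := by
  classical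
  by_contra k
  obtain ⟨e, _, S, _, X, Y, hX, hY, L, z⟩ := step1 C (idp h) (sub_ne_zero.2 (Ne.symm k))
  obtain ⟨q, h1, h2, h3⟩ := step3 C (κ := .id K) (π := 0) Function.surjective_id (by simp) rfl .zero h hX hY L
    (MonoidHom.id _)
  rw [kap h1 h2] at h3
  exact z (h3.symm.trans (Matrix.map_zero _ (map_zero _)))

theorem loc {G R K S : Type} [Group G] [CommRing R] [IsLocalRing R] [CommRing K] [Fintype S] [DecidableEq S]
    {κ : R →+* K} (hs : Function.Surjective κ) {π : R} (hk : ∀ r, κ r = 0 → π ∣ r) (hn : IsNilpotent π)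
    (H : Subgroup G) [Finite H] {q : Matrix S S R[G]} (h : q * q = q) (h0 : q.trace.coeff 1 = 0)
    {q1 : Matrix S S K[H]} (e : q.map (mapRingHom G κ) = q1.map (mapDomainRingHom K H.subtype)) :
    ∃ r ≤ Fintype.card S * Nat.card H, (r : R) = 0 ∧ (r = 0 → q1 = 0) := by
  have kr : ∀ {G : Type} [Group G] (W : Matrix S S R[G]), W.map (mapRingHom G κ) = 0 → ∃ V, W = π • V :=
    fun W z => by
      choose V hV using fun i j => ker_map' hk (congrFun (congrFun z i) j)
      exact ⟨.of V, Matrix.ext hV⟩
  have nil : ∀ {G : Type} [Group G] (W : Matrix S S R[G]), IsNilpotent (π • W) := fun W =>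
    hn.imp fun k z => by rw [smul_pow, z, zero_smul]
  have inj : Function.Injective (mapDomainRingHom K H.subtype) := mapDomain_injective Subtype.val_injective
  have : ∀ b, ∃ a, mapRingHom H κ a = b := map_surjective (M := H) κ.toAddMonoidHom hs
  choose l hl using this
  obtain ⟨q0, i0, e0⟩ := exists_isIdempotentElem_eq_of_ker_isNilpotent (mapRingHom H κ).mapMatrix
    (fun W z => (kr W (RingHom.mem_ker.1 z)).elim fun V x => x ▸ nil V) q1 ⟨q1.map l, Matrix.ext fun i j => hl _⟩
    (Matrix.map_injective inj (by simp only [Matrix.map_mul, ← e]; rw [← Matrix.map_mul, h]))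
  obtain ⟨q', hq⟩ : ∃ q', q' = q0.map (mapDomainRingHom R H.subtype) := ⟨_, rfl⟩
  have h' : q' * q' = q' := by rw [hq, ← Matrix.map_mul, i0.eq]
  obtain ⟨V, hV⟩ := kr (q - q') (by
    rw [Matrix.map_sub _ (map_sub _), e, ← e0, hq, sub_eq_zero]
    exact Matrix.ext fun i j =>
      (RingHom.congr_fun (mapRingHom_comp_mapDomainRingHom κ H.subtype) (q0 i j)).symm)
  obtain ⟨u, hu⟩ := (nil (q * V - V * q')).isUnit_one_sub
  have : u.1 = 1 - (q * (q - q') - (q - q') * q') := by rw [hu, hV]; simp [smul_sub]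
  have c : q * u.1 = u.1 * q' := by
    rw [this]; linear_combination (norm := noncomm_ring) -h * q + 3 * h * q' - 3 * q * h' - h + q' * h' + h'
  have tc : ∀ a b : Matrix S S R[G], (a * b).trace.coeff 1 = (b * a).trace.coeff 1 := fun a b => by
    simp only [Matrix.trace, Matrix.diag, Matrix.mul_apply, coeff_sum, Finsupp.finsetSum_apply]
    rw [Finset.sum_comm]
    simp only [c1_comm (a _ _)]
  have t : q0.trace.coeff 1 = 0 := by
    rw [← u.mul_inv_cancel_right q, c, tc, Units.inv_mul_cancel_left, hq, ← AddMonoidHom.map_trace] at h0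
    exact (Finsupp.mapDomain_apply (f := H.subtype) Subtype.val_injective _ 1).symm.trans h0
  obtain ⟨r, a, b, c⟩ := fin_loc i0.eq t
  exact ⟨r, a, b, fun z => by rw [← e0, c z, map_zero]⟩

theorem charp (p : ℕ) [Fact p.Prime] {K : Type} [Field K] [CharP K p] [PerfectRing K p] (C : Cb M)
    (hG : ∀ (G : Type) [Group G] (f : G →ₙ* M), Function.Injective f → ∀ F : Finset G,
      ∃ (L : Type) (_ : Group L) (ρ : G →* L), (∀ s : Finset L, Finite (Subgroup.closure (s : Set L))) ∧
        Set.InjOn ρ F)
    {A B : Matrix n n K[M]} (h : A * B = 1) : B * A = 1 := by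
  classical
  by_contra k
  obtain ⟨e, _, S, _, X, Y, hX, hY, L, z⟩ := step1 C (idp h) (sub_ne_zero.2 (Ne.symm k))
  generalize hQ : Y * (1 - B * A) * X = Q at z
  obtain ⟨G, _, ρ, lf, inj⟩ := hG (Hg e) ⟨Subtype.val, fun _ _ => rfl⟩ Subtype.val_injective
    (Finset.univ.biUnion fun x : S × S => (Ps e (MonoidHom.id _) K (Q x.1 x.2)).coeff.support)
  let H := Subgroup.closure ((Finset.univ.biUnion fun x : S × S => (Ps e ρ K (Q x.1 x.2)).coeff.support : Finset G) :
    Set G)
  have : Finite H := lf _
  let q1 : Matrix S S K[H] := .of fun s t => comapDomain H.subtype Subtype.val_injective (Ps e ρ K (Q s t))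
  have e1 : Q.map (Ps e ρ K) = q1.map (mapDomainRingHom K H.subtype) := Matrix.ext fun s t =>
    (mapDomain_comapDomain (f := H.subtype) (x := Ps e ρ K (Q s t)) (fun g hg => ⟨⟨g, Subgroup.subset_closure
      (Finset.mem_biUnion.2 ⟨(s, t), Finset.mem_univ _, hg⟩)⟩, rfl⟩) Subtype.val_injective).symm
  let N := Fintype.card S * Nat.card H + 1
  let I : Ideal (WittVector p K) := .span {(p : WittVector p K) ^ N}
  have k0 := WittVector.ker_constantCoeff (p := p) (k := K)
  have kp : WittVector.constantCoeff (p : WittVector p K) = 0 := by simp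
  let κ : WittVector p K ⧸ I →+* K := Ideal.Quotient.lift I WittVector.constantCoeff fun a ha => by
    obtain ⟨b, rfl⟩ := Ideal.mem_span_singleton'.1 ha
    rw [map_mul, map_pow, kp, zero_pow (Nat.succ_ne_zero _), mul_zero]
  have := κ.domain_nontrivial
  have := IsLocalRing.of_surjective' _ (Ideal.Quotient.mk_surjective (I := I))
  have hs : Function.Surjective κ := fun x => (WittVector.constantCoeff_surjective p x).elim fun y hy =>
    ⟨Ideal.Quotient.mk I y, hy⟩
  have hk : ∀ r, κ r = 0 → (p : WittVector p K ⧸ I) ∣ r := fun r z => by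
    obtain ⟨r, rfl⟩ := Ideal.Quotient.mk_surjective r
    have : r ∈ RingHom.ker WittVector.constantCoeff := z
    rw [k0, Ideal.mem_span_singleton] at this
    simpa using map_dvd (Ideal.Quotient.mk I) this
  have hn : IsNilpotent (p : WittVector p K ⧸ I) := ⟨N, by
    rw [← map_natCast (Ideal.Quotient.mk I), ← map_pow]
    exact Ideal.Quotient.eq_zero_iff_mem.2 (Ideal.mem_span_singleton_self _)⟩
  obtain ⟨q, h1, h2, h3⟩ := step3 C hs hk (by simp) hn h hX hY L ρ
  obtain ⟨r, a, b, c⟩ := loc hs hk hn H h1 h2 (h3.trans (hQ ▸ e1))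
  have r0 : r = 0 := by_contra fun r0 => by
    obtain ⟨j, m, hm, rfl⟩ := Nat.exists_eq_pow_mul_and_not_dvd r0 p (Fact.out (p := p.Prime)).ne_one
    have u : IsUnit (m : WittVector p K) := WittVector.isUnit_of_coeff_zero_ne_zero _ (by
      have : WittVector.constantCoeff (m : WittVector p K) ≠ 0 := by
        rwa [map_natCast, Ne, CharP.cast_eq_zero_iff K p]
      exact this)
    rw [← map_natCast (Ideal.Quotient.mk I), Ideal.Quotient.eq_zero_iff_mem, Ideal.mem_span_singleton, Nat.cast_mul,
      u.dvd_mul_right, Nat.cast_pow,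
      pow_dvd_pow_iff (WittVector.irreducible p).ne_zero (WittVector.irreducible p).not_isUnit] at b
    have := Nat.lt_pow_self (n := j) (Fact.out (p := p.Prime)).one_lt
    have := Nat.le_mul_of_pos_right (p ^ j) (Nat.pos_of_ne_zero fun x : m = 0 => hm (x ▸ dvd_zero p))
    omega
  refine z (Matrix.ext fun s t => ?_)
  have := congrFun (congrFun e1 s) t
  rw [c r0, Matrix.map_apply, Ps_dom] at this
  refine coeff_injective (Finsupp.mapDomain_injOn _ inj (fun g hg => Finset.mem_biUnion.2
    ⟨(s, t), Finset.mem_univ _, hg⟩) (by simp) ?_)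
  simpa using congrArg coeff this

theorem anyp {K : Type} [Field K] (C : Cb M)
    (hG : ∀ (G : Type) [Group G] (f : G →ₙ* M), Function.Injective f → ∀ F : Finset G,
      ∃ (L : Type) (_ : Group L) (ρ : G →* L), (∀ s : Finset L, Finite (Subgroup.closure (s : Set L))) ∧
        Set.InjOn ρ F)
    {A B : Matrix n n K[M]} (h : A * B = 1) : B * A = 1 := by
  obtain ⟨p, _⟩ := CharP.exists K
  rcases CharP.char_is_prime_or_zero K p with hp | rfl
  · have := Fact.mk hp
    let φ := mapRingHom M (algebraMap K (AlgebraicClosure K))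
    have inj : Function.Injective φ := map_injective (M := M) (algebraMap K (AlgebraicClosure K)).toAddMonoidHom
      (algebraMap K _).injective
    have := charp p C hG (A := φ.mapMatrix A) (B := φ.mapMatrix B) (by rw [← map_mul, h, map_one])
    rw [← map_mul, ← map_one φ.mapMatrix] at this
    exact Matrix.map_injective inj this
  · have := CharP.charP_to_charZero K
    exact char0 C h

theorem df_of {R : Type} [Ring R] {d : ℕ} (hd : 1 ≤ d)
    (h : ∀ a b : Matrix (Fin d) (Fin d) R, a * b = 1 → b * a = 1) (a b : R) (k : a * b = 1) : b * a = 1 := by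
  have := h (.diagonal fun _ => a) (.diagonal fun _ => b) (by simp [Matrix.diagonal_mul_diagonal, k])
  simpa [Matrix.diagonal_mul_diagonal] using congrFun (congrFun this ⟨0, hd⟩) ⟨0, hd⟩

end Pool.Agent.H.MP_a22eb7_al
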